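import Pool.Agent.helper81.CI.Spec
import Pool.Agent.helper81.CW.Lower
import Pool.Agent.helper91.CL.MVB

/-!
# Row SBI of project ci (MP_447e26_gt): `0.6 ^ n ≤ σ_n ≤ 1`
-/

set_option autoImplicit false

open MeasureTheory Set
open scoped ENNReal
open Pool.Agent.helper81.CW Pool.Agent.CL

namespace Pool.Agent.CI

/-- the inner measure of symmetry is at most `1` -/
theorem SBI_innerSym_le_one {n : ℕ} (C : Set (E n)) : innerSym C ≤ 1 := by
  unfold innerSym
  have h : (⨆ A : {A : Set (E n) // A ⊆ C ∧ Convex ℝ A ∧ CentrallySymmetric A}, volume A.1) ≤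
      volume C := iSup_le fun A => measure_mono A.2.1
  exact (ENNReal.div_le_div_right h _).trans ENNReal.div_self_le_one

/-- **SBI** -/
theorem SBI : SBI_stmt := by
  intro n hn
  refine ⟨?_, ?_⟩
  · have h1 : sigma n ≤ innerSym (Metric.closedBall (0 : E n) (1 / 2)) :=
      iInf_le (fun C : {C : Set (E n) // ∃ w, ConstWidth C w} => innerSym C.1)
        ⟨Metric.closedBall (0 : E n) (1 / 2), 1, MVB_ball n⟩
    exact h1.trans (SBI_innerSym_le_one _)
  · have h2 := lower_sigma n (by omega) _ rfl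
    refine le_trans (ENNReal.ofReal_le_ofReal ?_) h2
    have hs0 : 0 ≤ Real.sqrt (2 / ((n : ℝ) + 1)) := Real.sqrt_nonneg _
    set s := Real.sqrt (2 / ((n : ℝ) + 1)) with hs
    have h3 : 1.6 + s ≤ Real.sqrt (3 + 2 * s + 2 * s ^ 2) := by
      apply Real.le_sqrt_of_sq_le
      nlinarith [sq_nonneg (s - 0.6)]
    exact pow_le_pow_left₀ (by norm_num) (by linarith) n

end Pool.Agent.CI
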